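import Pool.Agent.N352.PF.Cnt
import Pool.Agent.N568.PJ.D12
import Pool.Agent.N402.PJ.LD

/-!
# Project PF (helper783, helper352), part LD (helper189)

Adapted from the files of helper402 (project PJ) and helper134 (project PQ).
-/

set_option autoImplicit false
set_option linter.all false

open Polynomial NumberField IsDedekindDomain
open scoped Classical

namespace Pool.Agent.N189.PF

open Pool.Agent.N352.PF
open Pool.Agent.N352.PJ (dd pol dis Dy D2 Dz)
open Pool.Agent.N402.PJ.LD (dc Dy_congr D2_congr no_double)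

section general

/-! ### a ring `A` with a surjection onto a field `K` whose kernel is of square zero -/

variable {A K : Type} [CommRing A] [Field K] (π : A →+* K)

theorem roots1 [Fintype A] (q : ℕ)
    (hf : ∀ r : K, (Finset.univ.filter fun y : A => π y = r).card ≤ q)
    (G : K[X]) (d : ℕ) (hd : G.natDegree ≤ d) (h0 : G ≠ 0) :
    (Finset.univ.filter fun y : A => G.eval (π y) = 0).card ≤ d * q := by
  have hcard : G.roots.toFinset.card ≤ d :=
    (Multiset.toFinset_card_le _).trans ((card_roots' _).trans hd)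
  have h1 := Finset.card_le_mul_card_image_of_maps_to
      (s := Finset.univ.filter fun y : A => G.eval (π y) = 0)
      (t := G.roots.toFinset) (f := fun y : A => π y)
      (fun y hy => by
        rw [Multiset.mem_toFinset, mem_roots h0, IsRoot]
        exact (Finset.mem_filter.1 hy).2) q (by
        intro ρ _
        refine (Finset.card_le_card ?_).trans (hf ρ)
        intro y hy
        rw [Finset.mem_filter] at hy ⊢
        exact ⟨Finset.mem_univ _, hy.2⟩)
  exact (h1.trans (Nat.mul_le_mul_left _ hcard)).trans_eq (mul_comm _ _)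

theorem roots2 [Fintype A] (hu : ∀ x : A, π x ≠ 0 → IsUnit x)
    (hsq : ∀ x : A, π x = 0 → x ^ 2 = 0) (F : A[X]) (d : ℕ) (hd : F.natDegree ≤ d)
    (hc : π (F.coeff d) ≠ 0)
    (hs : ∀ y : A, F.eval y = 0 → π ((derivative F).eval y) ≠ 0) :
    (Finset.univ.filter fun y : A => F.eval y = 0).card ≤ d := by
  have hne : F.map π ≠ 0 := by
    intro h
    have h1 := congrArg (fun G => G.coeff d) h
    simp only [coeff_map, coeff_zero] at h1
    exact hc h1
  have hcard : (F.map π).roots.toFinset.card ≤ d :=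
    (Multiset.toFinset_card_le _).trans ((card_roots' _).trans ((natDegree_map_le).trans hd))
  refine (Finset.card_le_card_of_injOn (t := (F.map π).roots.toFinset)
    (fun y : A => π y) (fun y hy => ?_) ?_).trans hcard
  · rw [Finset.mem_coe, Finset.mem_filter] at hy
    rw [Finset.mem_coe, Multiset.mem_toFinset, mem_roots hne, IsRoot, eval_map, eval₂_hom, hy.2,
      map_zero]
  intro y hy y' hy' he
  rw [Finset.mem_coe, Finset.mem_filter] at hy hy'
  have h1 : π (y' - y) = 0 := by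
    rw [map_sub, sub_eq_zero]
    exact he.symm
  obtain ⟨t, ht⟩ := Polynomial.binomExpansion F y (y' - y)
  rw [add_sub_cancel, hy.2, hy'.2, hsq _ h1, mul_zero, add_zero, zero_add] at ht
  have h2 := hu _ (hs y hy.2)
  have h3 : y' - y = 0 := (h2.mul_right_eq_zero).1 ht.symm
  exact (sub_eq_zero.1 h3).symm

end general

section count

variable {g : ℕ} {A : Type}

theorem up (a : Fin (2 * g) → A) (i : Fin (2 * g)) (y : A) (n : ℕ) (hi : (i : ℕ) = n) :
    Function.update a i y = fun j : Fin (2 * g) => if (j : ℕ) = n then y else a j := by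
  funext j
  by_cases hj : j = i
  · subst hj
    rw [if_pos hi, Function.update_self]
  · rw [if_neg (by rw [← hi]; exact fun h => hj (Fin.ext h)), Function.update_of_ne hj]

/-- the count in the ring `A` -/
theorem main {O : Type} [CommRing O] [IsDomain O] [CommRing A] {K : Type} [Field K] [Fintype A]
    (μ : O →+* A) (hμ : Function.Surjective μ) (π : A →+* K) (q : ℕ) (hq : 0 < q)
    (hA : Fintype.card A = q ^ 2)
    (hf : ∀ r : K, (Finset.univ.filter fun y : A => π y = r).card ≤ q)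
    (hu : ∀ x : A, π x ≠ 0 → IsUnit x) (hsq : ∀ x : A, π x = 0 → x ^ 2 = 0)
    (hg : 1 ≤ g) (hfac : ((2 * g + 1).factorial : K) ≠ 0) :
    (Finset.univ.filter fun a : Fin (2 * g) → A => dis a = 0).card * q ^ 2 ≤
      (2 * g + 2 * g * (2 * g - 1) * (2 * g + 1)) * q ^ (4 * g) := by
  have h1 := Pool.Agent.N568.PJ.d1
  have h2 := Pool.Agent.N568.PJ.d2
  have hi0 : 0 < 2 * g := by omega
  have hi1 : 1 < 2 * g := by omega
  have hV : (Finset.univ : Finset (Fin (2 * g) → A)).card = q ^ (4 * g) := by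
    rw [Finset.card_univ, Fintype.card_fun, hA, Fintype.card_fin, ← pow_mul]
    congr 1
    ring
  have hfac1 : ((2 * g + 1 : ℕ) : K) ≠ 0 := by
    intro h
    apply hfac
    rw [Nat.factorial_succ, Nat.cast_mul, h, zero_mul]
  -- lift
  have hl : ∀ a : Fin (2 * g) → A, ∃ b : Fin (2 * g) → O, (fun j => μ (b j)) = a := fun a =>
    ⟨fun j => (hμ (a j)).choose, funext fun j => (hμ (a j)).choose_spec⟩
  have hDy : ∀ a : Fin (2 * g) → A, (Dy a).natDegree ≤ 2 * g := by
    intro a
    obtain ⟨b, rfl⟩ := hl a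
    rw [← Pool.Agent.N568.PJ.Dy_map]
    exact natDegree_map_le.trans (h1 g O b hg).1
  have hDy' : ∀ a : Fin (2 * g) → K, (Dy a).natDegree ≤ 2 * g := fun a => (h1 g K a hg).1
  have hcoef : ∀ a : Fin (2 * g) → K, (Dy a).coeff (2 * g) ≠ 0 := by
    intro a
    obtain ⟨_, ⟨ε, hε, hc⟩, _⟩ := h1 g K a hg
    rw [hc]
    refine mul_ne_zero ?_ (pow_ne_zero _ ?_)
    · rcases hε with rfl | rfl <;> simp
    · exact_mod_cast hfac1
  have hev : ∀ (a : Fin (2 * g) → A) (y : A),
      (Dy a).eval y = dis fun j : Fin (2 * g) => if (j : ℕ) = 0 then y else a j := by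
    intro a y
    obtain ⟨b, rfl⟩ := hl a
    obtain ⟨z, rfl⟩ := hμ y
    rw [← Pool.Agent.N568.PJ.Dy_map, eval_map, eval₂_hom, (h1 g O b hg).2.2,
      Pool.Agent.N568.PJ.dis_map]
    congr 1
    funext j
    split_ifs <;> rfl
  have hD2π : ∀ a : Fin (2 * g) → A, π (D2 a) = D2 fun j => π (a j) := fun a =>
    Pool.Agent.N568.PJ.D2_map π a
  have hDyπ : ∀ a : Fin (2 * g) → A, (Dy a).map π = Dy fun j => π (a j) := fun a =>
    Pool.Agent.N568.PJ.Dy_map π a
  -- the three sets
  have hE := dc (ι := Fin (2 * g)) (S := A) ⟨1, hi1⟩ (fun a => π (D2 a) = 0)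
    (fun _ => True)
    ((2 * g - 1) * (2 * g + 1) * q) (fun _ _ _ => trivial) (by
      intro a _
      obtain ⟨h3, h4, h5⟩ := h2 g K K (fun j => π (a j)) hg hfac
      have h0 : Dz (fun j => π (a j)) ≠ 0 := by
        intro h
        rw [h, coeff_zero] at h4
        exact not_isUnit_zero h4
      refine le_trans (Finset.card_le_card ?_) (roots1 π q hf _ _ h3 h0)
      intro y hy
      rw [Finset.mem_filter] at hy ⊢
      refine ⟨Finset.mem_univ _, ?_⟩
      have h6 := hy.2
      rw [up a ⟨1, hi1⟩ y 1 rfl, hD2π] at h6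
      rw [h5, ← h6]
      apply Pool.Agent.N568.PJ.D2_congr
      intro j
      split_ifs <;> rfl)
  have hAA := dc (ι := Fin (2 * g)) (S := A) ⟨0, hi0⟩
    (fun a => ¬ π (D2 a) = 0 ∧ dis a = 0) (fun _ => True)
    (2 * g) (fun _ _ _ => trivial) (by
      intro a _
      by_cases hD : π (D2 a) = 0
      · rw [Finset.card_eq_zero.2]
        · exact Nat.zero_le _
        · rw [Finset.filter_eq_empty_iff]
          intro y _ hy
          apply hy.1
          rw [D2_congr (b := a)]
          · exact hD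
          · intro j hj
            rw [up a ⟨0, hi0⟩ y 0 rfl]
            simp only [if_neg hj]
      · refine le_trans (Finset.card_le_card ?_) (roots2 π hu hsq _ _ (hDy a) ?_ ?_)
        · intro y hy
          rw [Finset.mem_filter] at hy ⊢
          refine ⟨Finset.mem_univ _, ?_⟩
          rw [hev, ← up a ⟨0, hi0⟩ y 0 rfl]
          exact hy.2.2
        · rw [← coeff_map, hDyπ]
          exact hcoef _
        · intro y hy
          have h6 : (derivative (Dy fun j => π (a j))).natDegree ≤ 2 * g - 1 :=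
            (natDegree_derivative_le _).trans (Nat.sub_le_sub_right (hDy' _) 1)
          have h7 := no_double (hDy' fun j => π (a j)) h6 hi0.ne' (P := (0 : K)) (by
            rw [zero_dvd_iff]
            have := hD
            rw [hD2π] at this
            exact this) (π y) (by
            rw [zero_dvd_iff, ← hDyπ, eval_map, eval₂_hom, hy, map_zero])
          rw [zero_dvd_iff] at h7
          rw [← hDyπ, derivative_map, eval_map, eval₂_hom] at h7
          exact h7)
  have hB := dc (ι := Fin (2 * g)) (S := A) ⟨0, hi0⟩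
    (fun a => π (D2 a) = 0 ∧ π (dis a) = 0) (fun a => π (D2 a) = 0)
    (2 * g * q) (by
      intro a y h
      rw [D2_congr (b := Function.update a ⟨0, hi0⟩ y)]
      · exact h.1
      · intro j hj
        rw [up a ⟨0, hi0⟩ y 0 rfl]
        simp only [if_neg hj]) (by
      intro a _
      have hne : Dy (fun j => π (a j)) ≠ 0 := by
        intro h
        have h6 := hcoef fun j => π (a j)
        rw [h, coeff_zero] at h6
        exact h6 rfl
      refine le_trans (Finset.card_le_card ?_) (roots1 π q hf _ _ (hDy' _) hne)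
      intro y hy
      rw [Finset.mem_filter] at hy ⊢
      refine ⟨Finset.mem_univ _, ?_⟩
      rw [← hDyπ, eval_map, eval₂_hom, hev, ← up a ⟨0, hi0⟩ y 0 rfl]
      exact hy.2.2)
  rw [hA] at hE hAA hB
  rw [Finset.filter_true, hV] at hE hAA
  set e := (Finset.univ.filter fun a : Fin (2 * g) → A => π (D2 a) = 0).card with he
  set α := (Finset.univ.filter fun a : Fin (2 * g) → A =>
    ¬ π (D2 a) = 0 ∧ dis a = 0).card with hα
  set β := (Finset.univ.filter fun a : Fin (2 * g) → A =>
    π (D2 a) = 0 ∧ π (dis a) = 0).card with hβ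
  have hB2 : β * q ^ 2 ≤ 2 * g * ((2 * g - 1) * (2 * g + 1)) * q ^ (4 * g) := by
    have h3 : q ^ 2 * (β * q ^ 2) ≤
        q ^ 2 * (2 * g * ((2 * g - 1) * (2 * g + 1)) * q ^ (4 * g)) := by
      calc q ^ 2 * (β * q ^ 2) ≤ q ^ 2 * (2 * g * q * e) := Nat.mul_le_mul_left _ hB
        _ = 2 * g * q * (e * q ^ 2) := by ring
        _ ≤ 2 * g * q * ((2 * g - 1) * (2 * g + 1) * q * q ^ (4 * g)) :=
          Nat.mul_le_mul_left _ hE
        _ = q ^ 2 * (2 * g * ((2 * g - 1) * (2 * g + 1)) * q ^ (4 * g)) := by ring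
    exact Nat.le_of_mul_le_mul_left h3 (pow_pos hq 2)
  have hset : (Finset.univ.filter fun a : Fin (2 * g) → A => dis a = 0).card ≤ α + β := by
    refine (Finset.card_le_card ?_).trans (Finset.card_union_le _ _)
    intro a ha
    rw [Finset.mem_filter] at ha
    rw [Finset.mem_union, Finset.mem_filter, Finset.mem_filter]
    by_cases hD : π (D2 a) = 0
    · exact Or.inr ⟨Finset.mem_univ _, hD, by rw [ha.2, map_zero]⟩
    · exact Or.inl ⟨Finset.mem_univ _, hD, ha.2⟩
  calc _ ≤ (α + β) * q ^ 2 := Nat.mul_le_mul_right _ hset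
    _ = α * q ^ 2 + β * q ^ 2 := by ring
    _ ≤ 2 * g * q ^ (4 * g) + 2 * g * ((2 * g - 1) * (2 * g + 1)) * q ^ (4 * g) :=
      Nat.add_le_add hAA hB2
    _ = _ := by ring

end count

/-- **PF/LD** -/
theorem ld : S_LD := by
  intro F _ _ g v hg hfac
  set P : Ideal (𝓞 F) := v.asIdeal with hP
  have hPm : P.IsMaximal := v.isMaximal
  have hle : P ^ 2 ≤ P := Ideal.pow_le_self two_ne_zero
  have hP0 : P ≠ ⊥ := v.ne_bot
  have hP20 : P ^ 2 ≠ ⊥ := pow_ne_zero 2 hP0
  letI : Field (𝓞 F ⧸ P) := Ideal.Quotient.field P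
  haveI : Finite (𝓞 F ⧸ P ^ 2) := Ideal.finiteQuotientOfFreeOfNeBot _ hP20
  haveI : Finite (𝓞 F ⧸ P) := Ideal.finiteQuotientOfFreeOfNeBot _ hP0
  letI : Fintype (𝓞 F ⧸ P ^ 2) := Fintype.ofFinite _
  letI : Fintype (𝓞 F ⧸ P) := Fintype.ofFinite _
  set π : (𝓞 F ⧸ P ^ 2) →+* (𝓞 F ⧸ P) := Ideal.Quotient.factor hle with hπ
  have hπs : Function.Surjective π := Ideal.Quotient.factor_surjective hle
  have hc1 : Fintype.card (𝓞 F ⧸ P) = nv v := by
    rw [nv, Ideal.absNorm_apply, Submodule.cardQuot_apply, Nat.card_eq_fintype_card]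
  have hc2 : Fintype.card (𝓞 F ⧸ P ^ 2) = nv v ^ 2 := by
    rw [nv, ← map_pow, Ideal.absNorm_apply, Submodule.cardQuot_apply, Nat.card_eq_fintype_card]
  have hq : 0 < nv v := by
    rw [← hc1]
    exact Fintype.card_pos
  have hf : ∀ r : 𝓞 F ⧸ P, (Finset.univ.filter fun y : 𝓞 F ⧸ P ^ 2 => π y = r).card ≤ nv v := by
    intro r
    have h1 : ∀ s : 𝓞 F ⧸ P, (Finset.univ.filter fun y : 𝓞 F ⧸ P ^ 2 => π y = s).card =
        (Finset.univ.filter fun y : 𝓞 F ⧸ P ^ 2 => π y = r).card := fun s =>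
      AddMonoidHom.card_fiber_eq_of_mem_range (π : (𝓞 F ⧸ P ^ 2) →+ (𝓞 F ⧸ P)) (hπs s) (hπs r)
    have h2 : ∑ s : 𝓞 F ⧸ P, (Finset.univ.filter fun y : 𝓞 F ⧸ P ^ 2 => π y = s).card =
        Fintype.card (𝓞 F ⧸ P ^ 2) := by
      rw [← Finset.card_univ]
      exact (Finset.card_eq_sum_card_fiberwise fun _ _ => Finset.mem_coe.2 (Finset.mem_univ _)).symm
    rw [Finset.sum_congr rfl fun s _ => h1 s, Finset.sum_const, Finset.card_univ, hc1, hc2,
      smul_eq_mul, sq (nv v)] at h2
    exact (Nat.eq_of_mul_eq_mul_left hq h2).le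
  have hmem : ∀ x : 𝓞 F, π (Ideal.Quotient.mk _ x) = 0 ↔ x ∈ P := fun x => by
    rw [hπ, Ideal.Quotient.factor_mk, Ideal.Quotient.eq_zero_iff_mem]
  have hsq : ∀ x : 𝓞 F ⧸ P ^ 2, π x = 0 → x ^ 2 = 0 := by
    intro x hx
    obtain ⟨y, rfl⟩ := Ideal.Quotient.mk_surjective x
    rw [hmem] at hx
    rw [← map_pow, Ideal.Quotient.eq_zero_iff_mem]
    exact Ideal.pow_mem_pow hx 2
  have hu : ∀ x : 𝓞 F ⧸ P ^ 2, π x ≠ 0 → IsUnit x := by
    intro x hx
    obtain ⟨y, hy⟩ := hπs ((π x)⁻¹)
    have h1 : π (1 - x * y) = 0 := by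
      rw [map_sub, map_mul, map_one, hy, mul_inv_cancel₀ hx, sub_self]
    have h2 := hsq _ h1
    have h3 : x * (y * (2 - x * y)) = 1 := by linear_combination (-1 : 𝓞 F ⧸ P ^ 2) * h2
    exact IsUnit.of_mul_eq_one _ h3
  have hfac' : ((2 * g + 1).factorial : 𝓞 F ⧸ P) ≠ 0 := by
    intro h
    apply hfac
    rw [← Ideal.Quotient.eq_zero_iff_mem, map_natCast]
    exact h
  have h := main (g := g) (Ideal.Quotient.mk (P ^ 2)) Ideal.Quotient.mk_surjective π (nv v) hq hc2
    hf hu hsq hg hfac'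
  have h4 : {a : Fin (2 * g) → 𝓞 F ⧸ P ^ 2 | dis a = 0}.ncard =
      (Finset.univ.filter fun a : Fin (2 * g) → 𝓞 F ⧸ P ^ 2 => dis a = 0).card := by
    rw [← Set.ncard_coe_finset]
    congr 1
    ext a
    simp
  rw [h4]
  exact h

end Pool.Agent.N189.PF
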